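import Pool.Agent.H55.FFM.TD

/-!
# Row RL4: the relation between four functions
-/

set_option autoImplicit false

open MvPolynomial Pool.Agent.H18.HIT Pool.Agent.H55.FFM
open Pool.Agent.H12.ZD (pmap v O Res DenseOrbit NoInv)
open Pool.Agent.H8.TD (lc Wsp K3 xx ph)

namespace Pool.Agent.H97.FFM

/-- a finitely generated algebraic extension is finite -/
theorem fin_alg {k K : Type} [Field k] [Field K] [Algebra k K]
    (hfg : (⊤ : IntermediateField k K).FG) (L : IntermediateField k K)
    (halg : Algebra.IsAlgebraic L K) : FiniteDimensional L K := by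
  obtain ⟨T, hT⟩ := hfg
  have h9 : IntermediateField.adjoin L (T : Set K) = ⊤ := by
    rw [eq_top_iff]
    intro x _
    have h10 : x ∈ IntermediateField.adjoin k (T : Set K) := by rw [hT]; trivial
    have h11 : IntermediateField.adjoin k (T : Set K) ≤
        (IntermediateField.adjoin L (T : Set K)).restrictScalars k := by
      rw [IntermediateField.adjoin_le_iff]
      exact IntermediateField.subset_adjoin _ _
    exact h11 h10
  have h12 : FiniteDimensional L (IntermediateField.adjoin L (T : Set K)) := by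
    have : Finite (T : Set K) := T.finite_toSet
    exact IntermediateField.finiteDimensional_adjoin fun x _ =>
      (Algebra.IsAlgebraic.isAlgebraic x).isIntegral
  rw [h9] at h12
  exact LinearEquiv.finiteDimensional
    (IntermediateField.topEquiv (F := L) (E := K)).toLinearEquiv

/-- the degree in a variable which does not occur -/
theorem degreeOf_rename_val {k : Type} [Field k] {n : ℕ} (i : Fin n)
    (q : MvPolynomial {j : Fin n // j ≠ i} k) :
    degreeOf i (rename (Subtype.val : {j : Fin n // j ≠ i} → Fin n) q) = 0 := by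
  classical
  rw [degreeOf_def]
  apply Multiset.count_eq_zero_of_notMem
  intro h
  have h1 : i ∈ (rename (Subtype.val : {j : Fin n // j ≠ i} → Fin n) q).vars := by
    rw [vars_def, Multiset.mem_toFinset]
    exact h
  have h2 := vars_rename _ _ h1
  rw [Finset.mem_image] at h2
  obtain ⟨j, -, hj⟩ := h2
  exact j.2 hj

open scoped IntermediateField.algebraAdjoinAdjoin in
/-- clearing the denominators -/
theorem clear {k K : Type} [Field k] [Field K] [Algebra k K] (a : Fin 4 → K) (i : Fin 4)
    (hfin : FiniteDimensional (IntermediateField.adjoin k (a '' {j | j ≠ i})) K) :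
    ∃ Ψ : MvPolynomial (Fin 4) k, Ψ ≠ 0 ∧ aeval a Ψ = 0 ∧
      degreeOf i Ψ ≤ dg k (a '' {j | j ≠ i}) := by
  classical
  set S : Set K := a '' {j | j ≠ i} with hS
  have hSr : S = Set.range (fun j : {j : Fin 4 // j ≠ i} => a j) := by
    ext x
    constructor
    · rintro ⟨j, hj, rfl⟩
      exact ⟨⟨j, hj⟩, rfl⟩
    · rintro ⟨j, rfl⟩
      exact ⟨j.1, j.2, rfl⟩
  set d : ℕ := dg k S with hd
  set b : Fin (d + 1) → K := fun n => a i ^ (n : ℕ) with hb
  have hnot : ¬ LinearIndependent (IntermediateField.adjoin k S) b := by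
    intro h
    have h1 := h.fintype_card_le_finrank
    rw [Fintype.card_fin] at h1
    have h2 : Module.finrank (IntermediateField.adjoin k S) K = d := rfl
    omega
  have hnot' : ¬ LinearIndependent (Algebra.adjoin k S) b := fun h =>
    hnot ((LinearIndependent.iff_fractionRing (Algebra.adjoin k S)
      (IntermediateField.adjoin k S)).1 h)
  rw [Fintype.not_linearIndependent_iff] at hnot'
  obtain ⟨g, hg0, n₀, hn₀⟩ := hnot'
  have hq : ∀ n, ∃ q : MvPolynomial {j : Fin 4 // j ≠ i} k,
      aeval (fun j : {j : Fin 4 // j ≠ i} => a j) q = (g n : K) := by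
    have h0 : ∀ y : K, y ∈ Algebra.adjoin k S → ∃ q : MvPolynomial {j : Fin 4 // j ≠ i} k,
        aeval (fun j : {j : Fin 4 // j ≠ i} => a j) q = y := by
      intro y hy
      rw [hSr, Algebra.adjoin_range_eq_range_aeval] at hy
      exact hy
    exact fun n => h0 _ (g n).2
  choose q hq using hq
  have hren : ∀ n, aeval a (rename (Subtype.val : {j : Fin 4 // j ≠ i} → Fin 4) (q n)) =
      (g n : K) := by
    intro n
    rw [aeval_rename]
    exact hq n
  set Ψ : MvPolynomial (Fin 4) k := ∑ n : Fin (d + 1),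
    rename (Subtype.val : {j : Fin 4 // j ≠ i} → Fin 4) (q n) * X i ^ (n : ℕ) with hΨ
  refine ⟨Ψ, ?_, ?_, ?_⟩
  · intro h0
    set E : MvPolynomial (Fin 4) k →ₐ[k] Polynomial (MvPolynomial {j : Fin 4 // j ≠ i} k) :=
      aeval (fun j => if h : j = i then Polynomial.X else Polynomial.C (X ⟨j, h⟩)) with hE
    have hEr : ∀ p : MvPolynomial {j : Fin 4 // j ≠ i} k,
        E (rename (Subtype.val : {j : Fin 4 // j ≠ i} → Fin 4) p) = Polynomial.C p := by
      intro p
      have h1 : E.comp (rename (Subtype.val : {j : Fin 4 // j ≠ i} → Fin 4)) =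
          (Polynomial.CAlgHom : MvPolynomial {j : Fin 4 // j ≠ i} k →ₐ[k] _) := by
        refine MvPolynomial.algHom_ext fun j => ?_
        rw [AlgHom.comp_apply, rename_X, hE, aeval_X, dif_neg j.2]
        rfl
      exact DFunLike.congr_fun h1 p
    have hEX : E (X i) = Polynomial.X := by
      rw [hE, aeval_X, dif_pos rfl]
    have h1 := congrArg (fun p => (E p).coeff (n₀ : ℕ)) h0
    simp only [hΨ, map_sum, map_mul, map_pow, hEr, hEX, map_zero, Polynomial.coeff_zero,
      Polynomial.finset_sum_coeff, Polynomial.coeff_C_mul_X_pow] at h1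
    rw [Finset.sum_eq_single n₀] at h1
    · rw [if_pos rfl] at h1
      apply hn₀
      apply Subtype.ext
      rw [← hq n₀, h1, map_zero]
      rfl
    · intro n _ hn
      rw [if_neg]
      intro h2
      exact hn (Fin.ext h2.symm)
    · intro h2
      exact absurd (Finset.mem_univ _) h2
  · rw [hΨ, map_sum, ← hg0]
    refine Finset.sum_congr rfl fun n _ => ?_
    rw [map_mul, map_pow, aeval_X, hren]
    rfl
  · rw [hΨ]
    refine (degreeOf_sum_le i _ _).trans (Finset.sup_le fun n _ => ?_)
    refine (degreeOf_mul_le i _ _).trans ?_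
    rw [degreeOf_rename_val, degreeOf_X_self_pow, zero_add]
    have := n.2
    omega

theorem pf_RL4 (hCTN : T_CTN) : T_RL4 := by
  classical
  intro k K _ _ _ a htr hfg hind
  set P : Ideal (MvPolynomial (Fin 4) k) :=
    RingHom.ker (aeval a : MvPolynomial (Fin 4) k →ₐ[k] K) with hP
  have hPm : ∀ Ψ : MvPolynomial (Fin 4) k, Ψ ∈ P ↔ aeval a Ψ = 0 := fun Ψ => RingHom.mem_ker
  have hPp : P.IsPrime := RingHom.ker_isPrime _
  have hne : P ≠ ⊥ := by
    intro h0
    have h1 : AlgebraicIndependent k a := by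
      rw [AlgebraicIndependent, injective_iff_map_eq_zero]
      intro Ψ hΨ
      have h2 : Ψ ∈ P := (hPm Ψ).2 hΨ
      rw [h0] at h2
      exact h2
    have h2 := h1.cardinalMk_le_trdeg
    rw [htr] at h2
    simp only [Cardinal.mk_fin] at h2
    have h3 : (4 : ℕ) ≤ 3 := by exact_mod_cast h2
    omega
  obtain ⟨Φ, hΦP, hΦ⟩ := hPp.exists_mem_prime_of_ne_bot hne
  have hdvd : ∀ Ψ : MvPolynomial (Fin 4) k, aeval a Ψ = 0 → Φ ∣ Ψ := by
    intro Ψ hΨ
    by_contra hnd
    have h0 : Ψ ≠ 0 := by
      rintro rfl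
      exact hnd (dvd_zero _)
    have hrel : IsRelPrime Φ Ψ := hΦ.irreducible.isRelPrime_iff_not_dvd.2 hnd
    have h1 := hCTN 4 k K Φ Ψ a (by norm_num) hΦ.ne_zero h0 hrel ((hPm Φ).1 hΦP) hΨ
    have hmem : ∀ j, a j ∈ IntermediateField.adjoin k (Set.range a) := fun j =>
      IntermediateField.subset_adjoin _ _ ⟨j, rfl⟩
    set x : Fin 3 → IntermediateField.adjoin k (Set.range a) :=
      ![⟨a 0, hmem 0⟩, ⟨a 1, hmem 1⟩, ⟨a 2, hmem 2⟩] with hx
    have h2 : AlgebraicIndependent k x := by
      refine AlgebraicIndependent.of_comp (IntermediateField.val _) ?_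
      have h3 : (IntermediateField.val (IntermediateField.adjoin k (Set.range a))) ∘ x =
          ![a 0, a 1, a 2] := by
        funext j
        fin_cases j <;> rfl
      rw [h3]
      exact hind
    have h3 := h2.cardinalMk_le_trdeg.trans h1
    simp only [Cardinal.mk_fin] at h3
    have h4 : (3 : ℕ) ≤ 4 - 2 := by exact_mod_cast h3
    omega
  refine ⟨Φ, hΦ.ne_zero, (hPm Φ).1 hΦP, fun i => ?_⟩
  have hle : ∀ Ψ : MvPolynomial (Fin 4) k, Ψ ≠ 0 → aeval a Ψ = 0 → degreeOf i Φ ≤ degreeOf i Ψ := by
    intro Ψ h0 hΨ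
    obtain ⟨Θ, rfl⟩ := hdvd Ψ hΨ
    rw [degreeOf_mul_eq (left_ne_zero_of_mul h0) (right_ne_zero_of_mul h0)]
    omega
  by_cases hi : AlgebraicIndependent k (fun j : {j : Fin 4 // j ≠ i} => a j)
  · have hbas : IsTranscendenceBasis k (fun j : {j : Fin 4 // j ≠ i} => a j) := by
      refine hi.isTranscendenceBasis_of_trdeg_le_of_finite ?_
      rw [htr]
      have h1 : Fintype.card {j : Fin 4 // j ≠ i} = 3 := by
        rw [Fintype.card_subtype_compl, Fintype.card_fin, Fintype.card_subtype_eq]
      rw [Cardinal.mk_fintype, h1]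
      norm_num
    have halg := hbas.isAlgebraic_field
    have hSr : Set.range (fun j : {j : Fin 4 // j ≠ i} => a j) = a '' {j | j ≠ i} := by
      ext x
      constructor
      · rintro ⟨j, rfl⟩
        exact ⟨j.1, j.2, rfl⟩
      · rintro ⟨j, hj, rfl⟩
        exact ⟨⟨j, hj⟩, rfl⟩
    rw [hSr] at halg
    obtain ⟨Ψ, h0, h1, h2⟩ := clear a i (fin_alg hfg _ halg)
    exact (hle Ψ h0 h1).trans h2
  · rw [AlgebraicIndependent, injective_iff_map_eq_zero] at hi
    push Not at hi
    obtain ⟨q, hq, hq0⟩ := hi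
    have h1 := hle (rename (Subtype.val : {j : Fin 4 // j ≠ i} → Fin 4) q) (by
      intro h
      apply hq0
      exact (map_eq_zero_iff _ (rename_injective _ Subtype.val_injective)).1 h) (by
      rw [aeval_rename]
      exact hq)
    rw [degreeOf_rename_val] at h1
    exact h1.trans (Nat.zero_le _)

end Pool.Agent.H97.FFM
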