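import Pool.Agent.H55.FFM.TD
import Pool.Agent.H97.FFM.RL4

/-!
# Row CRV: an invariant closed set in two hypersurfaces is a curve
-/

set_option autoImplicit false

open MvPolynomial Pool.Agent.H18.HIT Pool.Agent.H55.FFM
open Pool.Agent.H12.ZD (pmap v O Res DenseOrbit NoInv)
open Pool.Agent.H8.TD (lc Wsp K3 xx ph)

namespace Pool.Agent.H97.FFM

theorem pf_CRV (hCTN : T_CTN) : T_CRV := by
  intro k _ _ _ G I F _ _ π τ' hVM hS hX
  set x : Fin 3 → F := fun i => π (X i) with hx
  have hπ : π = aeval x := MvPolynomial.algHom_ext fun i => by rw [aeval_X]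
  have hgen : IntermediateField.adjoin k (Set.range x) = ⊤ := by
    rw [eq_top_iff, ← hVM.top, IntermediateField.adjoin_le_iff]
    rintro _ ⟨q, rfl⟩
    apply IntermediateField.algebra_adjoin_le_adjoin
    rw [Algebra.adjoin_range_eq_range_aeval, hπ]
    exact ⟨q, rfl⟩
  have hfg : (⊤ : IntermediateField k F).FG :=
    IntermediateField.fg_def.2 ⟨Set.range x, Set.finite_range _, hgen⟩
  have htra : ∃ y : F, Transcendental k y := by
    by_contra hcon
    have h1 : Algebra.IsAlgebraic k F := ⟨fun y => by
      by_contra hy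
      exact hcon ⟨y, hy⟩⟩
    have h2 : Function.Surjective (algebraMap k F) :=
      IsAlgClosed.algebraMap_bijective_of_isIntegral.2
    obtain ⟨c, hc⟩ := h2 (π (X 0))
    apply hX c
    rw [← hVM.ker, map_sub, ← hc]
    have h3 : π (C c) = algebraMap k F c := by
      rw [← MvPolynomial.algebraMap_eq, AlgHom.commutes]
    rw [h3, sub_self]
  refine ⟨?_, ?_, ?_, htra⟩
  · exact (π.range).fg_iff_finiteType.2
      (Algebra.FiniteType.of_surjective π.rangeRestrict π.rangeRestrict_surjective)
  · rw [AlgHom.coe_range]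
    exact hVM.top
  · obtain ⟨y, hy⟩ := htra
    obtain ⟨S, hSI, S', hSI', hS0, hS0', hrel⟩ := hS
    have h1 := hCTN 3 k F S S' x (by norm_num) hS0 hS0' hrel
      (by rw [← hπ]; exact (hVM.ker S).2 hSI) (by rw [← hπ]; exact (hVM.ker S').2 hSI')
    rw [hgen] at h1
    have h2 : Algebra.trdeg k F ≤ 1 := by
      rw [← (IntermediateField.topEquiv (F := k) (E := F)).trdeg_eq]
      simpa using h1
    have h3 : AlgebraicIndependent k (fun _ : Unit => y) :=
      (algebraicIndependent_unique_type_iff).2 hy
    have h4 : IsTranscendenceBasis k (fun _ : Unit => y) :=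
      h3.isTranscendenceBasis_of_trdeg_le_of_finite (by simpa using h2)
    have h5 := h4.isAlgebraic_field
    have h6 : Set.range (fun _ : Unit => y) = {y} := by
      ext z
      simp [eq_comm]
    rw [h6] at h5
    exact ⟨y, fin_alg hfg _ h5⟩

end Pool.Agent.H97.FFM
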