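import Pool.Agent.H55.FFM.TP

/-!
# Row IND: elements with different valuations modulo `E` form a basis
-/

set_option autoImplicit false

open Pool.Agent.H55.FFM

namespace Pool.Agent.H97.FFM

private theorem val_neg {k F S : Type} [Field k] [Field F] [Algebra k F] {v : S → F → ℤ}
    (h : Vs k v) (s : S) (a : F) (ha : a ≠ 0) : v s (-a) = v s a := by
  have h1 := h.mul s (-1) a (neg_ne_zero.2 one_ne_zero) ha
  have h2 := h.cst s (-1) (neg_ne_zero.2 one_ne_zero)
  rw [map_neg, map_one] at h2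
  rw [neg_one_mul] at h1
  rw [h1, h2, zero_add]

private theorem val_add {k F S : Type} [Field k] [Field F] [Algebra k F] {v : S → F → ℤ}
    (h : Vs k v) (s : S) (a b : F) (ha : a ≠ 0) (hb : b ≠ 0) (hlt : v s a < v s b) :
    a + b ≠ 0 ∧ v s (a + b) = v s a := by
  have hn := val_neg h s b hb
  have hne : a + b ≠ 0 := by
    intro h0
    have h1 : a = -b := eq_neg_of_add_eq_zero_left h0
    rw [← h1] at hn
    omega
  refine ⟨hne, ?_⟩
  have h1 := h.add s a b ha hb hne
  have h2 := h.add s (a + b) (-b) hne (neg_ne_zero.2 hb) (by simpa using ha)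
  rw [hn, add_neg_cancel_right] at h2
  omega

private theorem sum_ne {k F S : Type} [Field k] [Field F] [Algebra k F] {v : S → F → ℤ}
    (h : Vs k v) (s : S) {ι : Type} (t : ι → F) (T : Finset ι) (hT : T.Nonempty) :
    (∀ i ∈ T, t i ≠ 0) → (∀ i ∈ T, ∀ j ∈ T, v s (t i) = v s (t j) → i = j) →
    ∑ i ∈ T, t i ≠ 0 ∧ ∃ i ∈ T, v s (∑ i ∈ T, t i) = v s (t i) := by
  induction hT using Finset.Nonempty.cons_induction with
  | singleton a =>
    intro ht _
    rw [Finset.sum_singleton]
    exact ⟨ht a (Finset.mem_singleton_self a), a, Finset.mem_singleton_self a, rfl⟩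
  | cons a T ha hT ih =>
    intro ht hd
    obtain ⟨hu, j, hj, hvj⟩ := ih (fun i hi => ht i (Finset.mem_cons_of_mem hi))
      (fun i hi j hj => hd i (Finset.mem_cons_of_mem hi) j (Finset.mem_cons_of_mem hj))
    rw [Finset.sum_cons]
    have hta := ht a (Finset.mem_cons_self a T)
    have hne : v s (t a) ≠ v s (t j) := by
      intro h0
      have h1 := hd a (Finset.mem_cons_self a T) j (Finset.mem_cons_of_mem hj) h0
      rw [h1] at ha
      exact ha hj
    rw [← hvj] at hne
    rcases lt_or_gt_of_ne hne with hlt | hlt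
    · obtain ⟨h1, h2⟩ := val_add h s _ _ hta hu hlt
      exact ⟨h1, a, Finset.mem_cons_self a T, h2⟩
    · obtain ⟨h1, h2⟩ := val_add h s _ _ hu hta hlt
      rw [add_comm]
      exact ⟨h1, j, Finset.mem_cons_of_mem hj, h2.trans hvj⟩

theorem pf_IND (hBAS : T_BAS) : T_IND := by
  classical
  intro k F S _ _ _ v hv τ E s s' hE hE1 hτ b hb hd
  refine (hBAS F τ E hE hE1).2 b fun c hc => ?_
  by_contra hcon
  push Not at hcon
  obtain ⟨i₀, hi₀⟩ := hcon
  set T : Finset (Fin E) := Finset.univ.filter fun i => c i ≠ 0 with hT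
  have hmem : ∀ i, i ∈ T ↔ c i ≠ 0 := fun i => by rw [hT, Finset.mem_filter]; simp
  have hsum : ∑ i ∈ T, τ (c i) * b i = 0 := by
    rw [← hc]
    refine Finset.sum_subset (Finset.subset_univ _) fun i _ hi => ?_
    rw [hmem, not_not] at hi
    rw [hi, map_zero, zero_mul]
  have hτ0 : ∀ i ∈ T, τ (c i) ≠ 0 := by
    intro i hi
    rw [hmem] at hi
    exact (map_ne_zero τ).2 hi
  have hval : ∀ i ∈ T, v s (τ (c i) * b i) = E * v s' (c i) + v s (b i) := by
    intro i hi
    rw [hv.mul s _ _ (hτ0 i hi) (hb i), hτ (c i) ((hmem i).1 hi)]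
  refine (sum_ne hv s (fun i => τ (c i) * b i) T ⟨i₀, (hmem i₀).2 hi₀⟩
    (fun i hi => mul_ne_zero (hτ0 i hi) (hb i)) ?_).1 hsum
  intro i hi j hj hij
  rw [hval i hi, hval j hj] at hij
  refine hd i j ⟨v s' (c j) - v s' (c i), ?_⟩
  rw [mul_sub]
  linarith

end Pool.Agent.H97.FFM
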