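import Pool.Agent.H55.FFM.TD

/-!
# Row UPB: the number of preimages is at most the degree of a primitive element
-/

set_option autoImplicit false

open MvPolynomial Pool.Agent.H18.HIT Pool.Agent.H55.FFM
open Pool.Agent.H12.ZD (pmap v O Res DenseOrbit NoInv)

namespace Pool.Agent.H97.FFM

theorem pf_UPB : T_UPB := by
  classical
  intro N k _ G θ Φ Δ R hP
  refine ⟨Δ, hP.ne, fun y hy S hS => ?_⟩
  set Ψ : Polynomial k := Φ.map (eval y) with hΨ
  have hm : Ψ.Monic := hP.monic.map _
  have hΨ0 : Ψ ≠ 0 := hm.ne_zero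
  have hroot : ∀ x ∈ S, eval x θ ∈ Ψ.roots.toFinset := by
    intro x hx
    rw [Multiset.mem_toFinset, Polynomial.mem_roots hΨ0, Polynomial.IsRoot.def]
    have h1 := eval_ev2 G θ Φ x
    rw [hP.root, map_zero, hS x hx] at h1
    exact h1.symm
  have hinj : Set.InjOn (fun x : Fin N → k => eval x θ) (S : Set (Fin N → k)) := by
    intro x hx x' hx' hxx
    simp only at hxx
    funext i
    have h1 := congrArg (eval x) (hP.coord i)
    have h2 := congrArg (eval x') (hP.coord i)
    rw [map_mul, eval_aeval, eval_X, eval_ev2, hS x hx] at h1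
    rw [map_mul, eval_aeval, eval_X, eval_ev2, hS x' hx'] at h2
    rw [hxx, ← h2] at h1
    exact mul_left_cancel₀ hy h1
  calc S.card ≤ Ψ.roots.toFinset.card := Finset.card_le_card_of_injOn _ hroot hinj
    _ ≤ Multiset.card Ψ.roots := Multiset.toFinset_card_le _
    _ ≤ Ψ.natDegree := Polynomial.card_roots' _
    _ = Φ.natDegree := hP.monic.natDegree_map _

end Pool.Agent.H97.FFM
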