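import Pool.Agent.H55.FFM.TE

/-!
# Row VMX: the field of rational functions of `V(I)`
-/

set_option autoImplicit false

open MvPolynomial Pool.Agent.H18.HIT Pool.Agent.H55.FFM
open Pool.Agent.H12.ZD (pmap v O Res DenseOrbit NoInv)

namespace Pool.Agent.H97.FFM

theorem pf_VMX : T_VMX := by
  intro N k _ G I hI hG
  haveI := hI
  set A := Po N k ⧸ I with hA
  have hle : I ≤ I.comap (aeval G : Po N k →ₐ[k] Po N k) := fun q hq => (hG q).2 hq
  set τR : A →ₐ[k] A := Ideal.quotientMapₐ I (aeval G : Po N k →ₐ[k] Po N k) hle with hτR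
  have hτR0 : Function.Injective τR := by
    rw [injective_iff_map_eq_zero]
    intro a ha
    obtain ⟨q, rfl⟩ := Ideal.Quotient.mk_surjective a
    have h1 : τR (Ideal.Quotient.mk I q) = Ideal.Quotient.mk I (aeval G q) := rfl
    rw [h1, Ideal.Quotient.eq_zero_iff_mem] at ha
    exact Ideal.Quotient.eq_zero_iff_mem.2 ((hG q).1 ha)
  set F := FractionRing A with hF
  set ι : A →ₐ[k] F := IsScalarTower.toAlgHom k A F with hι
  have hι0 : Function.Injective ι := IsFractionRing.injective A F
  have hinj : Function.Injective (ι.comp τR) := hι0.comp hτR0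
  set τ' : F →ₐ[k] F := IsFractionRing.liftAlgHom hinj with hτ'
  set π : Po N k →ₐ[k] F := ι.comp (Ideal.Quotient.mkₐ k I) with hπ
  have hcom : ∀ a : A, τ' (algebraMap A F a) = ι (τR a) := by
    intro a
    rw [hτ', IsFractionRing.liftAlgHom_apply]
    exact IsFractionRing.lift_algebraMap hinj a
  refine ⟨F, inferInstance, inferInstance, π, τ', ?_, ?_, ?_⟩
  · intro q
    have h1 : π q = ι (Ideal.Quotient.mk I q) := rfl
    rw [h1, map_eq_zero_iff ι hι0, Ideal.Quotient.eq_zero_iff_mem]
  · intro q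
    exact hcom (Ideal.Quotient.mk I q)
  · rw [eq_top_iff]
    intro x _
    obtain ⟨a, b, hb, rfl⟩ := IsFractionRing.div_surjective (A := A) x
    obtain ⟨qa, rfl⟩ := Ideal.Quotient.mk_surjective a
    obtain ⟨qb, rfl⟩ := Ideal.Quotient.mk_surjective b
    exact div_mem (IntermediateField.subset_adjoin k _ ⟨qa, rfl⟩)
      (IntermediateField.subset_adjoin k _ ⟨qb, rfl⟩)

end Pool.Agent.H97.FFM
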