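import Pool.Agent.H55.FFM.TD
import Pool.Agent.H8.TD.Rec1

/-!
# Row B2P: the functions `l`, `l' ∘ G ^ n`, `J` generate a large field
-/

set_option autoImplicit false

open MvPolynomial Pool.Agent.H18.HIT Pool.Agent.H55.FFM
open Pool.Agent.H12.ZD (pmap v O Res DenseOrbit NoInv)
open Pool.Agent.H8.TD (lc Wsp K3 xx ph trdeg_K3 fg_K3 iter_algHom)

namespace Pool.Agent.H97.FFM

/-- a finitely generated algebraic extension is finite -/
private theorem fin_alg' {k K : Type} [Field k] [Field K] [Algebra k K]
    (hfg : (⊤ : IntermediateField k K).FG) (L : IntermediateField k K)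
    (halg : Algebra.IsAlgebraic L K) : FiniteDimensional L K := by
  obtain ⟨T, hT⟩ := hfg
  have h9 : IntermediateField.adjoin L (T : Set K) = ⊤ := by
    rw [eq_top_iff]
    intro x _
    have h10 : x ∈ IntermediateField.adjoin k (T : Set K) := by rw [hT]; trivial
    have h11 : IntermediateField.adjoin k (T : Set K) ≤
        (IntermediateField.adjoin L (T : Set K)).restrictScalars k := by
      rw [IntermediateField.adjoin_le_iff]
      exact IntermediateField.subset_adjoin _ _
    exact h11 h10
  have h12 : FiniteDimensional L (IntermediateField.adjoin L (T : Set K)) := by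
    have : Finite (T : Set K) := T.finite_toSet
    exact IntermediateField.finiteDimensional_adjoin fun x _ =>
      (Algebra.IsAlgebraic.isAlgebraic x).isIntegral
  rw [h9] at h12
  exact LinearEquiv.finiteDimensional
    (IntermediateField.topEquiv (F := L) (E := K)).toLinearEquiv

/-- a polynomial which is not constant is transcendental -/
theorem fr_transcendental {k : Type} [Field k] {J : Po 3 k} (hJ : ∀ c : k, J ≠ C c) :
    Transcendental k (fr J) := by
  intro halg
  have h1 : IsAlgebraic k J := by
    have h2 : Function.Injective (algebraMap (Po 3 k) (K3 k)) := IsFractionRing.injective _ _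
    exact (isAlgebraic_algebraMap_iff h2).1 halg
  have h3 : IsUnit J := h1.isIntegral.isUnit (by
    intro h0
    apply hJ 0
    rw [h0, map_zero])
  obtain ⟨r, -, hr⟩ := isUnit_iff_eq_C_of_isReduced.1 h3
  exact hJ r hr

private theorem range3 {K : Type} (x y z : K) : Set.range ![x, y, z] = {x, y, z} := by
  ext t
  simp only [Set.mem_range, Set.mem_insert_iff, Set.mem_singleton_iff]
  constructor
  · rintro ⟨i, rfl⟩
    fin_cases i
    · exact Or.inl rfl
    · exact Or.inr (Or.inl rfl)
    · exact Or.inr (Or.inr rfl)
  · rintro (rfl | rfl | rfl)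
    · exact ⟨0, rfl⟩
    · exact ⟨1, rfl⟩
    · exact ⟨2, rfl⟩

open scoped IntermediateField.algebraAdjoinAdjoin in
theorem pf_B2P (hREL : T_REL) (hIRR : T_IRR) (hPDG : T_PDG) (hADJ : T_ADJ) : T_B2P := by
  intro k _ _ τ J n D M hJ hD halg hΞ hM s s'
  set K := K3 k with hK
  set a : K := fr J with ha
  set b : K := τ^[n] a with hb
  set l : K := lc s (xx k) with hl
  set l' : K := lc s' (ph τ n) with hl'
  have hta : Transcendental k a := fr_transcendental hJ
  obtain ⟨f, hf⟩ := iter_algHom τ n
  have hfb : f a = b := by rw [hf]
  have htb : Transcendental k b := by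
    intro h
    rw [← hfb] at h
    exact hta ((isAlgebraic_algHom_iff f f.toRingHom.injective).1 h)
  by_cases hind : AlgebraicIndependent k ![l, l', a]
  swap
  · -- infinite degree
    have h0 : dg k {l, l', a} = 0 := by
      by_contra hne
      apply hind
      have hfin : FiniteDimensional (IntermediateField.adjoin k {l, l', a}) K :=
        Module.finite_of_finrank_pos (Nat.pos_of_ne_zero hne)
      have h1 : Algebra.IsAlgebraic (IntermediateField.adjoin k {l, l', a}) K := inferInstance
      rw [← range3] at h1
      have h2 : Algebra.IsAlgebraic (Algebra.adjoin k (Set.range ![l, l', a])) K :=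
        IntermediateField.isAlgebraic_adjoin_iff_top.1 h1
      have h3 : IsTranscendenceBasis k ![l, l', a] :=
        Algebra.IsAlgebraic.isTranscendenceBasis_of_le_trdeg_of_finite k ![l, l', a] (by
          rw [trdeg_K3]
          simp)
      exact h3.1
    rw [h0, mul_zero]
    exact Nat.zero_le _
  -- the basis
  have hbas : IsTranscendenceBasis k ![l, l', a] :=
    hind.isTranscendenceBasis_of_trdeg_le_of_finite (by
      rw [trdeg_K3]
      simp)
  have halgL : Algebra.IsAlgebraic (IntermediateField.adjoin k {l, l', a}) K := by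
    have := hbas.isAlgebraic_field
    rwa [range3] at this
  have hfinL : FiniteDimensional (IntermediateField.adjoin k {l, l', a}) K :=
    fin_alg' (fg_K3 k) _ halgL
  have hset : ∀ c : K, (insert c {l, l'} : Set K) = {l, l', c} := by
    intro c
    ext t
    simp only [Set.mem_insert_iff, Set.mem_singleton_iff]
    tauto
  set κ := IntermediateField.adjoin k ({l, l'} : Set K) with hκ
  have hdg : ∀ c : K, dg κ {c} = dg k {l, l', c} := by
    intro c
    rw [← hset c]
    exact hADJ k K {l, l'} c
  have hchar : CharZero κ := charZero_of_injective_algebraMap (algebraMap k κ).injective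
  have hfinκ : FiniteDimensional (IntermediateField.adjoin κ {a}) K := by
    apply Module.finite_of_finrank_pos
    have h1 : Module.finrank (IntermediateField.adjoin κ {a}) K = dg k {l, l', a} := hdg a
    rw [h1]
    exact Module.finrank_pos
  have htκ : Transcendental κ a := by
    have h1 := hind.transcendental_adjoin (s := {0, 1}) (i := 2) (by decide)
    have h2 : (![l, l', a] '' {0, 1} : Set K) = {l, l'} := by
      rw [Set.image_insert_eq, Set.image_singleton]
      rfl
    rw [h2] at h1
    exact IntermediateField.transcendental_adjoin_iff.2 h1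
  -- the relation
  obtain ⟨Ξ, hirr, hev⟩ := hREL k K a b hta halg
  obtain ⟨h1, h2⟩ := hIRR k K l l' a b Ξ hind htb hirr hev
  have h3 := hΞ Ξ hirr hev
  have h4 : D * dg k {l, l', a} = dg k {l, l', b} := by
    rw [h1, h2, h3]
    ring
  rw [h4, ← hdg b]
  have h5 := hPDG k κ K 3 (ph τ n) M J.totalDegree (map (algebraMap k κ) J) 1 ⟨a, hfinκ⟩
    ⟨a, htκ⟩ (fun s'' => by
      rw [hdg]
      exact hM s s' s'') (Finset.sup_mono (support_map_subset _ _)) (by simp) (by simp)
  have h6 : aeval (ph τ n) (map (algebraMap k κ) J) = b := by
    rw [aeval_map_algebraMap]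
    have h7 : (f.comp (IsScalarTower.toAlgHom k (Po 3 k) K)) = aeval (ph τ n) := by
      refine MvPolynomial.algHom_ext fun i => ?_
      rw [aeval_X]
      show f (algebraMap (Po 3 k) K (X i)) = τ^[n] (xx k i)
      rw [hf]
      rfl
    rw [← h7, ← hfb]
    rfl
  rw [map_one, div_one, h6] at h5
  exact h5

end Pool.Agent.H97.FFM
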