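import Pool.Agent.H55.FFM.TE

/-!
# Row UNI: `J` is not a unit on the orbit closure
-/

set_option autoImplicit false

open MvPolynomial Pool.Agent.H18.HIT Pool.Agent.H55.FFM
open Pool.Agent.H12.ZD (pmap v O Res DenseOrbit NoInv v_nonneg v_zero v_one v_mul v_pow v_sum_le
  v_add_lt v_add_le')

namespace Pool.Agent.H97.FFM

private theorem v_prod (p : Nat.Primes) {ι : Type} (s : Finset ι) (x : ι → Qb) :
    v p (∏ i ∈ s, x i) = ∏ i ∈ s, v p (x i) := by
  classical
  induction s using Finset.induction_on with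
  | empty => simp
  | insert i s hi ih => rw [Finset.prod_insert hi, Finset.prod_insert hi, v_mul, ih]

private theorem w_eval_le (p : Nat.Primes) (σ : Qb ≃+* Qb) {N : ℕ} (q : Po N Qb) (x : Fin N → Qb)
    {C : ℝ} (hC : 0 ≤ C) (hq : ∀ m, v p (σ (coeff m q)) ≤ C) (hx : ∀ i, v p (σ (x i)) ≤ 1) :
    v p (σ (eval x q)) ≤ C := by
  rw [eval_eq', map_sum]
  refine v_sum_le p _ _ hC fun m _ => ?_
  rw [map_mul, v_mul, map_prod, v_prod]
  have h1 : ∏ i, v p (σ (x i ^ m i)) ≤ 1 := by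
    refine Finset.prod_le_one (fun i _ => v_nonneg p _) fun i _ => ?_
    rw [map_pow, v_pow]
    exact pow_le_one₀ (v_nonneg p _) (hx i)
  have h0 : 0 ≤ ∏ i, v p (σ (x i ^ m i)) := Finset.prod_nonneg fun i _ => v_nonneg p _
  calc v p (σ (coeff m q)) * ∏ i, v p (σ (x i ^ m i)) ≤ C * 1 := mul_le_mul (hq m) h1 h0 hC
    _ = C := mul_one C

private theorem v_int (p : Nat.Primes) (n : ℤ) : v p ((n : ℤ) : Qb) ≤ 1 := by
  have h1 : ((n : ℤ) : Qb) ∈ O p := intCast_mem _ n
  exact h1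

theorem pf_UNI : T_UNI := by
  classical
  intro N G J B γ E p σ y z hE hG hJ hγ hy hzy hGG hvan
  have hcZ : ∀ (t : Fin N → ℤ) (i : Fin N), σ (cZ t i) = ((t i : ℤ) : Qb) := by
    intro t i
    unfold cZ
    exact map_intCast σ _
  have hz1 : ∀ i, v p (σ (cZ z i)) ≤ 1 := by
    intro i
    rw [hcZ]
    exact v_int p _
  -- the value of `J` at `z`
  have hdiff : v p (σ (eval (cZ z) J - eval (cZ y) J)) ≤ v p (((p : ℕ) : ℤ) : Qb) := by
    rw [eval_eq', eval_eq', ← Finset.sum_sub_distrib, map_sum]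
    refine v_sum_le p _ _ (v_nonneg p _) fun m _ => ?_
    rw [← mul_sub, map_mul, v_mul]
    obtain ⟨d, hd⟩ : ((p : ℕ) : ℤ) ∣ ∏ i, z i ^ m i - ∏ i, y i ^ m i := by
      rw [← ZMod.intCast_zmod_eq_zero_iff_dvd]
      push_cast
      rw [sub_eq_zero]
      refine Finset.prod_congr rfl fun i _ => ?_
      congr 1
      have h1 : ((z i - y i : ℤ) : ZMod (p : ℕ)) = 0 := by
        rw [ZMod.intCast_zmod_eq_zero_iff_dvd]
        exact hzy i
      push_cast at h1
      exact sub_eq_zero.1 h1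
    have h2 : σ (∏ i, cZ z i ^ m i - ∏ i, cZ y i ^ m i) =
        (((p : ℕ) : ℤ) : Qb) * ((d : ℤ) : Qb) := by
      have h3 : (((∏ i, z i ^ m i - ∏ i, y i ^ m i : ℤ)) : Qb) =
          ((((p : ℕ) : ℤ) * d : ℤ) : Qb) := by rw [hd]
      rw [Int.cast_mul] at h3
      rw [← h3, map_sub, map_prod, map_prod]
      push_cast
      congr 1
      · exact Finset.prod_congr rfl fun i _ => by rw [map_pow, hcZ]
      · exact Finset.prod_congr rfl fun i _ => by rw [map_pow, hcZ]
    rw [h2, v_mul]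
    calc v p (σ (coeff m J)) * (v p (((p : ℕ) : ℤ) : Qb) * v p ((d : ℤ) : Qb)) ≤
        1 * (v p (((p : ℕ) : ℤ) : Qb) * 1) := by
          refine mul_le_mul (hJ m) ?_ (mul_nonneg (v_nonneg p _) (v_nonneg p _)) zero_le_one
          exact mul_le_mul_of_nonneg_left (v_int p d) (v_nonneg p _)
      _ = v p (((p : ℕ) : ℤ) : Qb) := by ring
  have hp1 : v p (((p : ℕ) : ℤ) : Qb) < 1 := by
    rw [Int.cast_natCast]
    exact Pool.Agent.H12.ZD.v_self_lt p
  set ρ : ℝ := v p (σ (eval (cZ z) J)) with hρ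
  have hρ0 : 0 ≤ ρ := v_nonneg p _
  have hρ1 : ρ < 1 := by
    have h1 : σ (eval (cZ z) J) = σ (eval (cZ z) J - eval (cZ y) J) + σ (eval (cZ y) J) := by
      rw [← map_add, sub_add_cancel]
    rw [hρ, h1]
    exact v_add_lt p (hdiff.trans_lt hp1) hy
  -- the orbit
  set P : ℕ → Fin N → Qb := fun n => (pmap G)^[n] (cZ z) with hP
  have hPs : ∀ n, P (n + 1) = pmap G (P n) := fun n => Function.iterate_succ_apply' _ _ _
  have hP1 : ∀ n i, v p (σ (P n i)) ≤ 1 := by
    intro n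
    induction n with
    | zero => exact hz1
    | succ n ih =>
      intro i
      rw [hPs]
      exact w_eval_le p σ (G i) (P n) zero_le_one (hG i) ih
  have hrec : ∀ n, eval (P (2 * (n + 1))) J = γ * eval (P (2 * n)) J ^ (E ^ 2) := by
    intro n
    have h1 := congrArg (eval (P (2 * n))) hGG
    rw [eval_aeval, eval_aeval, map_mul, map_pow, eval_C, ← hPs, ← hPs] at h1
    exact h1
  have hpow : ∀ n, v p (σ (eval (P (2 * n)) J)) ≤ ρ ^ (n + 1) := by
    intro n
    induction n with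
    | zero =>
      rw [mul_zero, zero_add, pow_one]
      exact le_rfl
    | succ n ih =>
      rw [hrec, map_mul, v_mul, map_pow, v_pow]
      have h1 : v p (σ (eval (P (2 * n)) J)) ^ (E ^ 2) ≤ (ρ ^ (n + 1)) ^ (E ^ 2) :=
        pow_le_pow_left₀ (v_nonneg p _) ih _
      have h2 : (ρ ^ (n + 1)) ^ (E ^ 2) ≤ ρ ^ (n + 1 + 1) := by
        rw [← pow_mul]
        apply pow_le_pow_of_le_one hρ0 hρ1.le
        have h3 : 4 ≤ E ^ 2 := by nlinarith
        nlinarith
      calc v p (σ γ) * v p (σ (eval (P (2 * n)) J)) ^ (E ^ 2) ≤ 1 * ρ ^ (n + 1 + 1) :=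
            mul_le_mul hγ (h1.trans h2) (pow_nonneg (v_nonneg p _) _) zero_le_one
        _ = ρ ^ (n + 1 + 1) := one_mul _
  -- the inverse
  set C : ℝ := ∑ m ∈ B.support, v p (σ (coeff m B)) with hC
  have hC0 : 0 ≤ C := Finset.sum_nonneg fun m _ => v_nonneg p _
  have hCB : ∀ m, v p (σ (coeff m B)) ≤ C := by
    intro m
    by_cases hm : m ∈ B.support
    · exact Finset.single_le_sum (f := fun m => v p (σ (coeff m B))) (fun m _ => v_nonneg p _) hm
    · rw [notMem_support_iff] at hm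
      rw [hm, map_zero, v_zero]
      exact hC0
  have hone : ∀ n, 1 ≤ ρ ^ (n + 1) * C := by
    intro n
    have h1 := mem_van.1 hvan (2 * n)
    rw [map_sub, map_mul, map_one, sub_eq_zero] at h1
    have h2 : v p (σ (eval (P (2 * n)) J * eval (P (2 * n)) B)) = 1 := by
      rw [show eval (P (2 * n)) J * eval (P (2 * n)) B = 1 from h1, map_one, v_one]
    rw [map_mul, v_mul] at h2
    rw [← h2]
    exact mul_le_mul (hpow n) (w_eval_le p σ B _ hC0 hCB (hP1 _)) (v_nonneg p _)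
      (pow_nonneg hρ0 _)
  have hlim : Filter.Tendsto (fun n : ℕ => ρ ^ (n + 1) * C) Filter.atTop (nhds (0 * C)) :=
    ((tendsto_pow_atTop_nhds_zero_of_lt_one hρ0 hρ1).comp
      (Filter.tendsto_add_atTop_nat 1)).mul_const C
  have h1 := ge_of_tendsto' hlim hone
  rw [zero_mul] at h1
  linarith

end Pool.Agent.H97.FFM
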